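import Mathlib

/-!
Lamplighter group `⊕_ℤ ℤ/2 ⋊ ℤ` and the element of its rational group algebra whose left
annihilator is not finitely generated.
-/

namespace Pool.Agent.H.MP_c12e41_al

/-- elements of the lamplighter group: `(lamps, shift)` -/
@[ext] structure Lamp where
  lamps : ℤ →₀ ZMod 2
  shift : ℤ

namespace Lamp

/-- shift of a lamp configuration: `(sh s f) i = f (i + s)` -/
noncomputable def sh (s : ℤ) (f : ℤ →₀ ZMod 2) : ℤ →₀ ZMod 2 :=
  Finsupp.equivMapDomain (Equiv.subRight s) f

@[simp] lemma sh_apply (s : ℤ) (f : ℤ →₀ ZMod 2) (i : ℤ) : sh s f i = f (i + s) := by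
  simp [sh, Finsupp.equivMapDomain_apply]

noncomputable instance : Mul Lamp := ⟨fun a b => ⟨a.lamps + sh a.shift b.lamps, a.shift + b.shift⟩⟩
noncomputable instance : One Lamp := ⟨⟨0, 0⟩⟩
noncomputable instance : Inv Lamp := ⟨fun a => ⟨-sh (-a.shift) a.lamps, -a.shift⟩⟩

@[simp] lemma mul_lamps (a b : Lamp) (i : ℤ) :
    (a * b).lamps i = a.lamps i + b.lamps (i + a.shift) := by
  change (a.lamps + sh a.shift b.lamps) i = _
  simp
@[simp] lemma mul_shift (a b : Lamp) : (a * b).shift = a.shift + b.shift := rfl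
@[simp] lemma one_lamps (i : ℤ) : (1 : Lamp).lamps i = 0 := rfl
@[simp] lemma one_shift : (1 : Lamp).shift = 0 := rfl
@[simp] lemma inv_lamps (a : Lamp) (i : ℤ) : (a⁻¹).lamps i = -a.lamps (i - a.shift) := by
  change (-sh (-a.shift) a.lamps) i = _
  simp [sub_eq_add_neg]
@[simp] lemma inv_shift (a : Lamp) : (a⁻¹).shift = -a.shift := rfl

lemma ext' {a b : Lamp} (h1 : ∀ i, a.lamps i = b.lamps i) (h2 : a.shift = b.shift) : a = b := by
  ext i
  · exact h1 i
  · exact h2

noncomputable instance : Group Lamp :=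
  Group.ofLeftAxioms
    (by
      intro a b c
      apply ext'
      · intro i; simp [add_comm, add_left_comm]
      · simp [add_assoc])
    (by intro a; apply ext' <;> simp)
    (by
      intro a
      apply ext'
      · intro i
        simp only [mul_lamps, inv_lamps, inv_shift, one_lamps, sub_eq_add_neg]
        exact neg_add_cancel _
      · simp)

end Lamp

open Lamp

/-- the shift -/
noncomputable def tt (s : ℤ) : Lamp := ⟨0, s⟩
/-- one lamp -/
noncomputable def aa (i : ℤ) : Lamp := ⟨Finsupp.single i 1, 0⟩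

lemma tt_mul (r s : ℤ) : tt r * tt s = tt (r + s) := by
  apply Lamp.ext' <;> simp [tt]

lemma aa_mul_self (i : ℤ) : aa i * aa i = 1 := by
  apply Lamp.ext'
  · intro j
    simp [aa, ← Finsupp.add_apply, ← Finsupp.single_add]
    rw [show (1 : ZMod 2) + 1 = 0 by decide]; simp
  · simp [aa]

lemma aa_comm (i j : ℤ) : aa i * aa j = aa j * aa i := by
  apply Lamp.ext'
  · intro k; simp [aa, add_comm]
  · simp [aa]

lemma tt_mul_aa (s i : ℤ) : tt s * aa i = aa (i - s) * tt s := by
  apply Lamp.ext'
  · intro k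
    simp only [tt, aa, Lamp.mul_lamps, Finsupp.single_apply, Finsupp.coe_zero, Pi.zero_apply]
    simp only [zero_add, add_zero]
    congr 1
    exact propext ⟨fun h => by omega, fun h => by omega⟩
  · simp [aa, tt]

/-- sign of a lamp -/
def sg (c : ZMod 2) : ℚ := if c = 0 then 1 else -1

lemma sg_add (a b : ZMod 2) : sg (a + b) = sg a * sg b := by
  have h : ∀ c : ZMod 2, c = 0 ∨ c = 1 := by decide
  have h11 : (1 : ZMod 2) + 1 = 0 := by decide
  rcases h a with rfl | rfl <;> rcases h b with rfl | rfl <;> simp [sg, h11]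

end Pool.Agent.H.MP_c12e41_al
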